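import Pool.Agent.R852.MX.Top

set_option autoImplicit false

/-! # The motivic monodromy conjecture at the origin for products of powers of forms over products of determinantal ideals

Let `x` be the generic matrix of one of the three spaces `S` of matrices: all `m × n` matrices, the
symmetric `n × n` matrices, the skew symmetric `n × n` matrices (`MSpace`). Let `p t`, `t < T`, be sizes
of minors (of Pfaffians of size `2 (p t)` in the skew symmetric case), `p t < min (m, n)`, `p t < n`, or
`2 (p t) + 1 < n` (`Small`), which are distributed over `B` blocks: `t` belongs to the block `β t`. For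
`b < B` let

  `F_b = ∑_J y_{b,J} ∏_{β t = b} M_{J t}(x)`,

where `J` runs over the choices of one minor (Pfaffian) `M_{J t}` of size `p t` for each `t` in the block
`b`, and the `y_{b,J}` are further variables. So `F_b` is the form over the product of the ideals of the
minors of the sizes `p t`, `β t = b`. Let `F = ∏ b, F_b ^ a b`, `a b ≥ 1` (`mixForm`, with integral
coefficients), and let `I = (F)`.

The local motivic zeta function of `I` at the origin is `𝕃 ^ (-n) ∑_{l ≥ 1} [𝒳_l] 𝕃 ^ (-n l) T ^ l`
(`zetaO`), `𝒳_l` the set of the `l`-jets with origin `0` on which `F` has the order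
`l`, `n` the number of the variables `x` and `y`; by the change of variables formula this is the
function defined with a resolution. It is
defined in the Grothendieck ring of complex varieties, localised at `𝕃`. No resolution is
used: the jets are divided according to the orders of the ideals of the minors, for which there is a
recursion over the Schur complements, uniformly in the exponents; this gives the denominators
`1 - 𝕃 ^ (-ν_d) T ^ (N_d)`, `ν_d` the codimension of the matrices of rank `≤ d`
(`≤ 2 d`), `N_d = ∑ t, a (β t) max (p t - d, 0)`, and `1 - 𝕃 ^ (-1) T ^ (a b)` (`mixPairs`).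

The proof for the roots: a functional equation of `F` gives one of the product of the powers of the
ideals of the blocks with the same `b`, which is one of the product of powers of the ideals of the
minors, and the exceptional divisors `E_d` over the rank loci are Rees divisors of this product; the
roots `-1 / a b` come from the strict transforms. -/

namespace Pool.Agent.Results.MP_4e5fcd_ag.MixedDeterminantal

open MvPolynomial Pool.Agent.H628R4.TP Pool.Agent.TH192.DT Pool.Agent.TH192.MT
  Pool.Agent.W428.MOT Pool.Agent.TH192.MU Pool.Agent.R852.MX

/-- **The motivic monodromy conjecture at the origin for `I = (F)`, `F = ∏ b, F_b ^ a b`**, the `F_b`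
the forms over products of ideals of minors (Pfaffians) of a generic, symmetric or skew symmetric
matrix. The finite set `mixPairs S p β a` of the pairs `(-ν_d, N_d)` and `(-1, a b)` has the two
properties: for its elements `(-ν, N)`, `-ν / N` is a root of every `b` with
`b(s) F ^ s = P(s) F ^ (s + 1)` near the origin (`IsLocalBFunction`), in particular of the local
Bernstein-Sato polynomial of `F` at the origin (by the theorem of Malgrange and Kashiwara,
`exp(-2 π i ν / N)` is an eigenvalue of the monodromy of `F` at a point over each
neighbourhood of the origin); and the local motivic zeta function of `I` at the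
origin lies in the ring generated by `T` and the `1 / (1 - 𝕃 ^ (-ν) T ^ N)`. -/
theorem result (S : MSpace) (T B : ℕ) (p : Fin T → ℕ) (β : Fin T → Fin B) (a : Fin B → ℕ)
    (hp : ∀ t, S.Small (p t)) (ha : ∀ b, 0 < a b) :
    (∀ q ∈ mixPairs S p β a, q.1 < 0 ∧ 0 < q.2 ∧
      ∀ b : Polynomial ℂ, IsLocalBFunction (map (Int.castRingHom ℂ) (mixForm S p β a)) b →
        b.eval ((q.1 : ℂ) / q.2) = 0) ∧
    zetaO (map (Int.castRingHom ℂ) (mixForm S p β a)) ∈
      ratRing ℂ (mixPairs S p β a : Set (ℤ × ℤ)) := by
  refine ⟨fun q hq => ⟨(mix_roots S p β a hp ha q hq).1, (mix_roots S p β a hp ha q hq).2.1,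
    (mix_roots S p β a hp ha q hq).2.2.2⟩, ?_⟩
  have hle : ratL (Lu ℂ) (mixPairs S p β a : Set (ℤ × ℤ)) ≤
      ratU (Lu ℂ) (mixPairs S p β a : Set (ℤ × ℤ)) := by
    refine Algebra.adjoin_le ?_
    rintro g (hg | ⟨q, hq, rfl⟩)
    · exact Algebra.subset_adjoin (Or.inl hg)
    · exact Subalgebra.mul_mem _ (Subalgebra.algebraMap_mem _ _)
        (Algebra.subset_adjoin (Or.inr ⟨q, hq, rfl⟩))
  exact Subalgebra.mul_mem _ (rat_C (Lu ℂ) _)
    (drop_mem (hle (mix_zeta S p β a hp ha constr_zero)))

end Pool.Agent.Results.MP_4e5fcd_ag.MixedDeterminantal
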