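import Pool.Agent.R852.FP.Main
import Pool.Agent.TH192.DT.MotZ

set_option autoImplicit false

/-! # The motivic monodromy conjecture for products of polymatroidal ideals of linear subspaces

Let `L s = zeros (c s)`, `s ∈ S`, be proper linear subspaces of the affine space `ℂ ^ σ`, given as the
zeros of linear forms with the coefficients `c s j`. For `t ∈ T` let `U t` be the set of the bases of a
discrete polymatroid on `S` (a finite non-empty set of vectors `u : S → ℕ` with the exchange property
of Herzog and Hibi), let

  `J_t = ∑_{u ∈ U t} ∏_s I(L s) ^ u s`,

which is generated by the products of the linear forms, `u s` of them from the family of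
index `s`, for the `u ∈ U t` (`polyGen`), and let `I = ∏ t, J_t ^ a t`, generated by the products of these
products (`prodFam`).

For example, if the `L s` are hyperplanes `ℓ_s = 0` and `U t = {u | u s ≤ 1, ∑ s, u s = k t}`, then `J_t`
is the ideal generated by the `k t`-fold products of the linear forms `ℓ_s` (Tohaneanu and others; if
the `ℓ_s` are generic it is the ideal of a star configuration). The theorem applies to the sets
`U t = {u | u s ≤ d s, ∑ s, u s = k}`, `0 < d s`, `k < ∑ s, d s`, and to their sums (`IsVeronese`; `d` and
`k` may depend on `t`); so for instance to all products of powers of the ideals of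
`k`-fold products, `k < |S|`, of an arbitrary arrangement of hyperplanes (or of subspaces).

Let `𝒢` be the set of all the flats of the `L s` (proper intersections of some of them, `IsFlat`), and
let `Y` be the (maximal) wonderful model of De Concini and Procesi, which is obtained from the affine
space by blowing up the strict transforms of the flats, in the order of the dimension. It is smooth, the
components `E_G`, `G ∈ 𝒢`, cross normally, `E_G, E_{G'}, …` have a common point only if `G, G', …` is a
chain, the multiplicity of the Jacobian determinant along `E_G` is `ν_G - 1` with `ν_G = codim G`, and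
the ideal of `L s` becomes the ideal of the divisor `∑ E_G`, over the `G ⊆ L s`. So near a point of `Y`
the ideal `J_t` is generated by the monomials `∏_G z_G ^ (∑_{s ∈ A_G} u s)`, `u ∈ U t`, where `G` runs over
a chain and `A_G` is the set of the `s` with `G ⊆ L s` (`above`); as the `A_G` form a chain, there is a
`u ∈ U t` for which all the exponents are minimal (greedy algorithm). Hence `J_t` is locally principal
and has the multiplicity `min_{u ∈ U t} ∑_{s ∈ A_G} u s` along `E_G` (`minOn`), and `Y` is a
principalization of `I`, with the multiplicities
`N_G = ∑ t, a t min_{u ∈ U t} ∑_{s ∈ A_G} u s` (`mulP`); by the formula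
of Denef and Loeser the motivic zeta function of `I` (global, or local at the origin) is of the form
`dlZ`.

The general form of the theorem (1) holds for all sets of exponents and all the `G` which are Rees flats
(`IsReesP`; an equivalent condition is that `E_G` is a Rees divisor of `I`), for instance
with a smaller building set, if the `J_t` become locally principal. (2) All flats are Rees flats, if the
`U t` are of the kind described above, or if the indices in `A_G` are linked (`IsLinked`): for each
decomposition of `A_G` into two non-empty parts there are `i`, `j` in the different parts such that some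
`U t`, `a t ≠ 0`, contains two elements `m + e_i`, `m + e_j` for which the sum over `A_G` is minimal.

The proof: at a general point of `E_G`, with the direction `v`, the quotients of the
generators `M (ℓ_i) / M (ℓ_j)` for linked `i`, `j` give all the linear forms on `L i ∩ L j` which vanish at
`v` (`Good.cov`); if the linked indices connect `A_G` they give a chart of `E_G` (`rees_of_linked`), and a
residue computation there gives the roots (`fp_core`). -/

namespace Pool.Agent.Results.MP_4e5fcd_ag.PolymatroidalIdeals

open Pool.Agent.W574.SM Pool.Agent.W574.LM Pool.Agent.W574.HS Pool.Agent.TH192.DT Pool.Agent.TH187.SA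
  Pool.Agent.R852.FP

/-- **The motivic monodromy conjecture for `I = ∏ t, J_t ^ a t`.** (1) Let
the `G i` be Rees flats, with the codimensions `ν i` and the
multiplicities `N i`. Every sum `dlZ` of the form of the formula
of Denef and Loeser, with arbitrary coefficients in a ring (the classes of the strata), lies in the
ring of the `u ^ (-ν i) T ^ (N i) / (1 - u ^ (-ν i) T ^ (N i))`, and all the numbers `-ν i / N i` are
roots of every `b` for which `H b` satisfies a functional equation of the generators of
`I` for some polynomial `H` with `H(0) ≠ 0`, in particular of the local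
Bernstein-Sato polynomial of `I` at the origin, and (`H = 1`) of the global one.
(2) All the
flats of the `L s` are Rees flats, if the sets `U t` of exponents with `a t ≠ 0` are sums of sets of
Veronese type `{u | u s ≤ d s, ∑ s, u s = k}`, `0 < d s`, `k < ∑ s, d s`, or if the indices of the
subspaces `L s ⊇ G` are linked for each flat `G`. -/
theorem result :
    (∀ {σ S T I : Type} [Fintype σ] [DecidableEq σ] [Fintype S] [DecidableEq S] [Fintype T]
      [DecidableEq T] [Fintype I] {κ : S → Type} [∀ s, Fintype (κ s)] [∀ s, DecidableEq (κ s)]
      (c : (s : S) → κ s → σ → ℂ) (U : T → Finset (S → ℕ)) (_ : ∀ t, (U t).Nonempty) (a : T → ℕ)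
      (G : I → Submodule ℂ (σ → ℂ)) (_ : ∀ i, IsReesP c U a (G i)),
      (∀ (R : Type) [CommRing R] (u : Rˣ)
        (χ : Finset {i // 0 < mulP c U a G (Sum.inl i)} → R),
        dlZ u (fun i => Fintype.card σ - Module.finrank ℂ (G i))
            (fun i => mulP c U a G (Sum.inl i)) χ ∈
          ratU u (pairs (fun i => Fintype.card σ - Module.finrank ℂ (G i))
            (fun i => mulP c U a G (Sum.inl i)) : Set (ℤ × ℤ))) ∧
      ∀ q ∈ pairs (fun i => Fintype.card σ - Module.finrank ℂ (G i))
          (fun i => mulP c U a G (Sum.inl i)), q.1 < 0 ∧ 0 < q.2 ∧
        ∀ (b : Polynomial ℂ) (H : MvPolynomial σ ℂ), MvPolynomial.constantCoeff H ≠ 0 →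
          IsLocEq H (prodFam fun q : Σ t, Fin (a t) => polyGen c (U q.1)) b →
            b.eval ((q.1 : ℂ) / q.2) = 0) ∧
    ∀ {σ S T : Type} [Fintype σ] [DecidableEq σ] [Fintype S] [DecidableEq S] [Fintype T]
      [DecidableEq T] {κ : S → Type} [∀ s, Fintype (κ s)] [∀ s, DecidableEq (κ s)]
      (c : (s : S) → κ s → σ → ℂ) (_ : ∀ s, ∃ j, c s j ≠ 0) (U : T → Finset (S → ℕ))
      (_ : ∀ t, (U t).Nonempty) (a : T → ℕ) (G : Submodule ℂ (σ → ℂ)), IsFlat c G →
      (∀ t, a t ≠ 0 → IsVeronese (U t)) ∨ IsLinked U a (above c G) → IsReesP c U a G := by
  refine ⟨?_, ?_⟩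
  · intro σ S T I _ _ _ _ _ _ _ κ _ _ c U hU a G hG
    refine ⟨fun _ _ u χ => dlZ_mem u _ _ χ, fun q hq => ?_⟩
    have h0 := pairs_sign _ _ (fun i => nu_pos (T := T) G (fun i => (hG i).1) (Sum.inl i)) q hq
    refine ⟨h0.1, h0.2, fun b H hH hb => ?_⟩
    obtain ⟨i, hi, rfl⟩ := Finset.mem_image.1 hq
    have hi' := (Finset.mem_filter.1 hi).2
    have h := ideal_roots c U hU a (G i) (hG i) b H hH hb 0 hi'
    rw [Nat.cast_zero, add_zero] at h
    have h1 : (((-((Fintype.card σ - Module.finrank ℂ (G i) : ℕ) : ℤ) : ℤ)) : ℂ) =
        -((Fintype.card σ - Module.finrank ℂ (G i) : ℕ) : ℂ) := by push_cast; rfl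
    simp only
    rw [h1, Int.cast_natCast]
    exact h
  · intro σ S T _ _ _ _ _ _ κ _ _ c hc U hU a G hG h
    exact isReesP_flat c hc U hU a G hG h

end Pool.Agent.Results.MP_4e5fcd_ag.PolymatroidalIdeals
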