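import Pool.Agent.R852.MC.Fin

set_option autoImplicit false

/-! # The motivic monodromy conjecture at the origin for ideals which are built with powers and
# products of powers of forms

Let `ML` be the least class of germs of ideals at the origin, together with their local motivic zeta
functions, with the following properties:

* it contains the unit ideal, the powers `(x ^ m)`, the non-zero ideals of `ℂ[x, y]`, the ideals of
  `ℂ[x₀, x₁, x₂]` generated by forms of the same degree, three of which are algebraically independent,
  the ideals generated by forms of the same degree without a common zero outside the origin, and it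
  is closed under sums and products in disjoint sets of variables (`Germ`);
* if the ideal `h ∏_t (f_{t, j})_j ^ a_t` is in the class, where `h` and the `f_{t, j}` are any polynomials
  in the same variables `x`, then the principal ideal of
  `h(x) ∏_t (∑_j y_{t, j} f_{t, j}(x)) ^ a_t` is in the class, with further variables `y_{t, j}`;
* if the principal ideal `(g)` is in the class, then `(g ^ k)` is in the class.

For example, the ideals `(F_1(x) ^ k_1, …, F_r(x^{(r)}) ^ k_r)` in disjoint sets of variables are in the class,
where the `F_i` are products of powers of generic members of linear systems on the plane, times a
fixed polynomial, and so are the germs of the generic members of the linear systems which they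
generate, and so on.

The proof (`Pool/Agent/R852/MC`): the properties of an ideal `I` of the class are that every number
`-n/a` which belongs to a denominator `1 - L⁻ⁿ Tᵃ` of the series of the volumes of `ord I ≥ e` is a forced
root: it is a zero of `B(0, s)` for all the functional equations of `I` with a polynomial `B(x, s)` in
place of `b(s)`. For `F = h ∏_t (∑_j y_{t, j} f_{t, j}) ^ a_t` a functional equation with `b` gives one of the ideal
`h ∏_t (f_{t, j})_j ^ a_t` with `b'`, `b(s) = b'(s) ∏_t ∏_{1 ≤ i ≤ a_t} (a_t s + i)` (`locEq_strong`); a
functional equation of `g ^ k` with `b(s)` gives one of `g` with `b(s / k)` (`loc_shift`), and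
`Z_{g ^ k}(T) = Z_g(T ^ k)` (`tail_expand`).
-/

namespace Pool.Agent.Results.MP_4e5fcd_ag.PowersOfForms

open MvPolynomial Pool.Agent.W574.MO Pool.Agent.W574.RO Pool.Agent.Y229 Pool.Agent.R852.MC

/-- **The motivic monodromy conjecture at the origin, in the strong form, for the ideals of the
class `ML`.** Let `I = (f_j)` be the ideal of the family `A`, in `n` variables, let it be in the class
`ML` which is described above, and let `Z` be its local motivic zeta function at the origin,
normalized such that the arcs with the origin `0` have the volume `1`. Then `L⁻ⁿ Z` lies in the ring
generated by `M[T]` and the series `1 / (1 - L⁻ᵐ Tᵃ)`, `a, m ≥ 1`, such that `-m/a` is a root of all the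
polynomials `b` which satisfy the functional equation of Budur, Mustata and Saito for `f_1, ..., f_r`
with differential operators with formal power series coefficients at the origin, in particular of
the local Bernstein-Sato polynomial of the ideal `I` at the origin. -/
theorem result {M : Type} [CommRing M] (L : Mˣ) (A : Fam) (Z : PowerSeries M) (h : ML L A Z) :
    PowerSeries.C ((L⁻¹ ^ Nat.card A.σ : Mˣ) : M) * Z ∈
      DenRing L (fun a m => ∀ b : Polynomial ℂ, IsLocalBI A.f b →
        b.eval (-(m : ℂ) / a) = 0) :=
  ml_ideal A Z h _

end Pool.Agent.Results.MP_4e5fcd_ag.PowersOfForms
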