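import Pool.Agent.R852.SC.Jac
import Pool.Agent.R852.SC.Main
import Pool.Agent.TH192.DT.MotZ

set_option autoImplicit false

/-! # The motivic monodromy conjecture for ideals with smooth zero schemes in the projective space

For `t ∈ T` let `g t j`, `j ∈ κ t`, be forms of the same degree `δ t > 0` in `n = |σ|` variables, not all
zero, let `I_t` be the ideal which they generate, and `I = ∏ t, I_t ^ a t`, with the generators
`prodFam`.

Let `Z_i`, `i ∈ I`, be pairwise disjoint smooth irreducible closed subvarieties of `ℙ^(n-1)`, of
codimension `c i`, and assume that, for all `t`, the ideal sheaf on `ℙ^(n-1)` defined by `I_t` is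
`∏ i, I(Z_i) ^ m i t`; the numbers `m i t ≥ 0` are arbitrary. So the zero scheme of `I_t` in the
projective space is a disjoint union of thickenings of smooth varieties (for example a reduced smooth
scheme, or a scheme of fat points). Let `p i ≠ 0` be a point of the affine cone over `Z_i`. Then near
`p i` the ideals `I_t` are the powers with the exponents `m i t` of the ideal of a smooth variety of
codimension `c i` (`PowersOfSmooth`). This, at one point for each `i`, is all that the proof uses.

Blow up the origin of `ℂ ^ n`, and then the strict transforms of the affine cones over the `Z_i`, which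
are smooth, pairwise disjoint, and transversal to the exceptional divisor `E_0 = ℙ^(n-1)`. On the smooth
variety `Y` obtained, the ideal `I_t` becomes the ideal of the divisor `δ t E_0 + ∑ i, m i t E_i`, which
has normal crossings; so `Y` is a log resolution of `I`, with the components `E_0`, with `ν = n` and
the multiplicity `N = ∑ t, a t * δ t`, and `E_i`, with `ν = c i` and `N = ∑ t, a t * m i t`.

The theorem needs another assumption: (J) for some `t` with `a t ≠ 0` there are `n` algebraically
independent forms among the `g t j` (their Jacobian determinant is not zero); that is, the rational map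
from `ℙ^(n-1)` given by the `g t j` is generically finite onto its image. By part (2) of the theorem it
holds if the linear span of the `g t j` contains the products `x_s q`, `s ∈ σ`, of the variables and some
form `q ≠ 0`.

Examples: (a) Let `Z_i` be arbitrary (pairwise disjoint, smooth) and `m i ≥ 0`. For all sufficiently
large `δ`, the forms of degree `δ` in `∏ i, I(Z_i) ^ m i` generate this ideal sheaf, and their span
contains all the `x_s q` for some `q ≠ 0`; so the theorem applies to the complete linear systems of the
forms of large degree with the multiplicities `m i` along the `Z_i`, and to all products of powers of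
such systems for the same `Z_i`. (b) One `Z`, and forms of the smallest degree: the quadrics in the
homogeneous ideals of the Segre varieties `ℙ^r × ℙ^s`, `r, s ≥ 2`, of the quadratic Veronese varieties of
`ℙ^r`, `r ≥ 2`, of the Grassmannians `G(2, r)`, `r ≥ 6`, and of the elliptic normal curves of degree `5`.

The proof: the quotients of the generators give, by (J), a chart of `E_0`
(`cone_chart`), and, as the powers of the ideal of a smooth variety have the same blow-up as the ideal,
a chart of `E_i` (`smooth_chart`; the formal inverse function theorem `exists_inverse` is used here). A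
residue computation in these charts gives the roots (`rees_prod`). -/

namespace Pool.Agent.Results.MP_4e5fcd_ag.SmoothConeIdeals

open MvPolynomial Pool.Agent.W574.SM Pool.Agent.W574.LM Pool.Agent.W574.HS Pool.Agent.H628R4.TP
  Pool.Agent.TH192.DT Pool.Agent.TH187.SA Pool.Agent.Y231.RF Pool.Agent.R852.SC

/-- **The motivic monodromy conjecture for `I = ∏ t, I_t ^ a t`, with roots of the Bernstein-Sato
polynomial.** (1) Every sum `dlZ` of the form of the formula of Denef and Loeser over the components
`E_0`, `E_i` with the numbers `ν`, `N` described above, with arbitrary coefficients in a ring (the classes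
of the strata), lies in the ring of the `u ^ (-ν) T ^ N / (1 - u ^ (-ν) T ^ N)`, and all the numbers
`-ν / N`, `N > 0`, are roots of every `b` for which `H b` satisfies a functional equation of the
generators of `I` for some polynomial `H` with `H(0) ≠ 0`, in particular of the local Bernstein-Sato
polynomial of `I` at the origin, and (`H = 1`) of the global one.
(2) The condition (J) holds if the span of the `g t j`, for some `t` with `a t ≠ 0`, contains the
products of all the variables and some form `q ≠ 0`. -/
theorem result :
    (∀ {σ T I : Type} [Fintype σ] [DecidableEq σ] [Fintype T] [DecidableEq T] [Fintype I]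
      {κ : T → Type} [∀ t, Fintype (κ t)] [∀ t, DecidableEq (κ t)]
      (g : (t : T) → κ t → MvPolynomial σ ℂ) (δ : T → ℕ) (_ : ∀ t, 0 < δ t)
      (_ : ∀ t j, (g t j).IsHomogeneous (δ t)) (_ : ∀ t, ∃ j, g t j ≠ 0) (a : T → ℕ)
      (_ : ∃ t, a t ≠ 0 ∧ ∃ e : σ → κ t, (Matrix.of fun i s => pderiv i (g t (e s))).det ≠ 0)
      (c : I → ℕ) (m : I → T → ℕ) (p : I → σ → ℂ)
      (_ : ∀ i, PowersOfSmooth g (c i) (m i) (p i)),
      (∀ (R : Type) [CommRing R] (u : Rˣ)
        (χ : Finset {o : Option I // 0 < ∑ t, a t * o.elim δ m t} → R),
        dlZ u (fun o : Option I => o.elim (Fintype.card σ) c)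
            (fun o : Option I => ∑ t, a t * o.elim δ m t) χ ∈
          ratU u (pairs (fun o : Option I => o.elim (Fintype.card σ) c)
            (fun o : Option I => ∑ t, a t * o.elim δ m t) : Set (ℤ × ℤ))) ∧
      ∀ q ∈ pairs (fun o : Option I => o.elim (Fintype.card σ) c)
          (fun o : Option I => ∑ t, a t * o.elim δ m t), q.1 < 0 ∧ 0 < q.2 ∧
        ∀ (b : Polynomial ℂ) (H : MvPolynomial σ ℂ), MvPolynomial.constantCoeff H ≠ 0 →
          IsLocEq H (prodFam fun q : Σ t, Fin (a t) => g q.1) b →
            b.eval ((q.1 : ℂ) / q.2) = 0) ∧
    ∀ {σ κ : Type} [Fintype σ] [DecidableEq σ] (g : κ → MvPolynomial σ ℂ) (q : MvPolynomial σ ℂ)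
      (d : ℕ), q.IsHomogeneous d → q ≠ 0 → (∀ s, X s * q ∈ Submodule.span ℂ (Set.range g)) →
      ∃ e : σ → κ, (Matrix.of fun i s => pderiv i (g (e s))).det ≠ 0 := by
  refine ⟨?_, ?_⟩
  · intro σ T I _ _ _ _ _ κ _ _ g δ hδ hg hg0 a hJ c m p hp
    have : Nonempty T := ⟨hJ.choose⟩
    have := nonempty_of g δ hδ hg hg0
    refine ⟨fun _ _ u χ => dlZ_mem u _ _ χ, fun q hq => ?_⟩
    have h0 := pairs_sign _ _ (fun o => nuC_pos (T := T) g c m p hp (Sum.inl o)) q hq
    refine ⟨h0.1, h0.2, fun b H hH hb => ?_⟩
    obtain ⟨o, ho, rfl⟩ := Finset.mem_image.1 hq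
    have ho' := (Finset.mem_filter.1 ho).2
    have h := ideal_comp g δ hδ hg hg0 a hJ c m p hp b H hH hb o ho'
    have h1 : (((-((o.elim (Fintype.card σ) c : ℕ) : ℤ) : ℤ)) : ℂ) =
        -((o.elim (Fintype.card σ) c : ℕ) : ℂ) := by push_cast; rfl
    simp only
    rw [h1, Int.cast_natCast]
    exact h
  · intro σ κ _ _ g q d hq h0 h
    exact jac_of_mul g q d hq h0 h

end Pool.Agent.Results.MP_4e5fcd_ag.SmoothConeIdeals
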